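import Mathlib

/-!
An eight-dimensional two-generated right alternative ring (over `ℤ` and over every `ℤ/n`)
without a finite normal series with associative quotients.  Nonzero products:
`e0e1=-e3, e1e0=e3, e1e1=e2, e1e3=e7, e1e4=-e5, e1e5=e6, e2e3=e4, e2e7=e5, e4e1=e5, e6e3=e0,
e6e7=-e3, e7e1=-e4, e7e2=-e5, e7e5=-e0, e7e6=e3`.
-/

namespace Pool.Agent.Results.MP_16f3b0_al.Counter

/-- `A` has a finite chain `0 = I 0 ⊆ ⋯ ⊆ I n = A` of two-sided ideals of `A` with all
quotients `I (k+1) / I k` associative (associators of elements of `I (k+1)` lie in `I k`). -/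
def HasSeries (A : Type) [NonUnitalNonAssocRing A] : Prop :=
  ∃ (n : ℕ) (I : ℕ → TwoSidedIdeal A), I 0 = ⊥ ∧ I n = ⊤ ∧ ∀ k < n, I k ≤ I (k + 1) ∧
    ∀ x ∈ I (k + 1), ∀ y ∈ I (k + 1), ∀ z ∈ I (k + 1), (x * y) * z - x * (y * z) ∈ I k

def B (K : Type) := Fin 8 → K

variable {K : Type} [CommRing K]

instance : AddCommGroup (B K) := inferInstanceAs (AddCommGroup (Fin 8 → K))

def mu (x y : Fin 8 → K) : Fin 8 → K :=
  ![x 6 * y 3 - x 7 * y 5, 0, x 1 * y 1, - x 0 * y 1 + x 1 * y 0 - x 6 * y 7 + x 7 * y 6,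
    x 2 * y 3 - x 7 * y 1, - x 1 * y 4 + x 2 * y 7 + x 4 * y 1 - x 7 * y 2, x 1 * y 5, x 1 * y 3]

theorem mu_addl (x y z : Fin 8 → K) : mu x (y + z) = mu x y + mu x z := by
  ext i; fin_cases i <;> simp [mu] <;> ring
theorem mu_addr (x y z : Fin 8 → K) : mu (x + y) z = mu x z + mu y z := by
  ext i; fin_cases i <;> simp [mu] <;> ring
theorem mu_zl (x : Fin 8 → K) : mu 0 x = 0 := by
  ext i; fin_cases i <;> simp [mu]
theorem mu_zr (x : Fin 8 → K) : mu x 0 = 0 := by
  ext i; fin_cases i <;> simp [mu]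
theorem mu_alt (x y : Fin 8 → K) : mu (mu x y) y = mu x (mu y y) := by
  ext i; fin_cases i <;> simp [mu] <;> ring
theorem mu_mou (w x y : Fin 8 → K) : mu (mu (mu w x) y) x = mu w (mu (mu x y) x) := by
  ext i; fin_cases i <;> simp [mu] <;> ring

instance : NonUnitalNonAssocRing (B K) :=
  { (inferInstance : AddCommGroup (B K)) with
    mul := mu
    left_distrib := mu_addl
    right_distrib := mu_addr
    zero_mul := mu_zl
    mul_zero := mu_zr }

def e (i : Fin 8) : B K := Pi.single i (1 : K)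

theorem t10 : (e 1 * e 0 : B K) = e 3 := by
  change mu _ _ = _; ext i; fin_cases i <;> simp [mu, e]
theorem t11 : (e 1 * e 1 : B K) = e 2 := by
  change mu _ _ = _; ext i; fin_cases i <;> simp [mu, e]
theorem t13 : (e 1 * e 3 : B K) = e 7 := by
  change mu _ _ = _; ext i; fin_cases i <;> simp [mu, e]
theorem t23 : (e 2 * e 3 : B K) = e 4 := by
  change mu _ _ = _; ext i; fin_cases i <;> simp [mu, e]
theorem t27 : (e 2 * e 7 : B K) = e 5 := by
  change mu _ _ = _; ext i; fin_cases i <;> simp [mu, e]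
theorem t15 : (e 1 * e 5 : B K) = e 6 := by
  change mu _ _ = _; ext i; fin_cases i <;> simp [mu, e]
theorem t76 : (e 7 * e 6 : B K) = e 3 := by
  change mu _ _ = _; ext i; fin_cases i <;> simp [mu, e]
theorem t63 : (e 6 * e 3 : B K) = e 0 := by
  change mu _ _ = _; ext i; fin_cases i <;> simp [mu, e]
theorem t67 : ((e 6 * e 7) * e 6 : B K) = 0 := by
  change mu (mu _ _) _ = (0 : Fin 8 → K); ext i; fin_cases i <;> simp [mu, e]

theorem noSeries [Nontrivial K] : ¬ HasSeries (B K) := by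
  rintro ⟨n, I, h0, hn, h⟩
  have key : ∀ j, j ≤ n → e 0 ∈ I (n - j) := by
    intro j
    induction j with
    | zero => intro _; simp [hn]
    | succ j ih =>
      intro hj
      have h1 := ih (by omega)
      rw [show n - j = n - (j + 1) + 1 by omega] at h1
      have h3 := (I _).mul_mem_left (e 1) _ h1
      rw [t10] at h3
      have h7 := (I _).mul_mem_left (e 1) _ h3
      rw [t13] at h7
      have h5 := (I _).mul_mem_left (e 2) _ h7
      rw [t27] at h5
      have h6 := (I _).mul_mem_left (e 1) _ h5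
      rw [t15] at h6
      have := (h (n - (j + 1)) (by omega)).2 _ h6 _ h7 _ h6
      rw [t67, t76, t63, zero_sub] at this
      simpa using (I _).neg_mem this
  have := key n le_rfl
  rw [Nat.sub_self, h0, TwoSidedIdeal.mem_bot] at this
  have h2 := congrFun this 0
  change (Pi.single (0 : Fin 8) (1 : K) : Fin 8 → K) 0 = 0 at h2
  simp at h2

theorem gen (n : ℕ) : NonUnitalSubring.closure {(e 0 : B (ZMod n)), e 1} = ⊤ := by
  set S := NonUnitalSubring.closure {(e 0 : B (ZMod n)), e 1}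
  have h0 : e 0 ∈ S := NonUnitalSubring.subset_closure (by simp)
  have h1 : e 1 ∈ S := NonUnitalSubring.subset_closure (by simp)
  have h2 : e 2 ∈ S := t11 (K := ZMod n) ▸ S.mul_mem h1 h1
  have h3 : e 3 ∈ S := t10 (K := ZMod n) ▸ S.mul_mem h1 h0
  have h4 : e 4 ∈ S := t23 (K := ZMod n) ▸ S.mul_mem h2 h3
  have h7 : e 7 ∈ S := t13 (K := ZMod n) ▸ S.mul_mem h1 h3
  have h5 : e 5 ∈ S := t27 (K := ZMod n) ▸ S.mul_mem h2 h7
  have h6 : e 6 ∈ S := t15 (K := ZMod n) ▸ S.mul_mem h1 h5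
  have hi : ∀ i, e i ∈ S := by
    intro i; fin_cases i <;> assumption
  rw [eq_top_iff]
  rintro x -
  have hx : x = ∑ i, (ZMod.cast (x i) : ℤ) • (e i : B (ZMod n)) := by
    have : ∀ y : Fin 8 → ZMod n,
        y = ∑ i, (ZMod.cast (y i) : ℤ) • (Pi.single i 1 : Fin 8 → ZMod n) := by
      intro y
      ext j
      simp only [Finset.sum_apply, Pi.smul_apply, Pi.single_apply]
      simp
    exact this x
  rw [hx]
  exact S.sum_mem fun i _ => zsmul_mem (hi i) _

theorem result (n : ℕ) (hn : n ≠ 1) :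
    ∃ (A : Type) (_ : NonUnitalNonAssocRing A), Nonempty (A ≃+ (Fin 8 → ZMod n)) ∧
      (∀ x y : A, (x * y) * y = x * (y * y)) ∧
      (∀ w x y : A, ((w * x) * y) * x = w * ((x * y) * x)) ∧
      (∃ a b : A, NonUnitalSubring.closure {a, b} = ⊤) ∧ ¬ HasSeries A := by
  haveI : Nontrivial (ZMod n) := ZMod.nontrivial_iff.2 hn
  exact ⟨B (ZMod n), inferInstance, ⟨AddEquiv.refl _⟩, mu_alt, mu_mou, ⟨_, _, gen n⟩, noSeries⟩

end Pool.Agent.Results.MP_16f3b0_al.Counter
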